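import Mathlib

namespace Pool.Agent.N116.Cancel

/-- `𝒜` is a subalgebra of `𝒫(X)`: it contains `∅` and `X` and is closed under finite unions,
finite intersections and complements. -/
structure IsSubalgebra {X : Type*} (𝒜 : Set (Set X)) : Prop where
  empty_mem : ∅ ∈ 𝒜
  univ_mem : Set.univ ∈ 𝒜
  union_mem : ∀ A ∈ 𝒜, ∀ B ∈ 𝒜, A ∪ B ∈ 𝒜
  inter_mem : ∀ A ∈ 𝒜, ∀ B ∈ 𝒜, A ∩ B ∈ 𝒜
  compl_mem : ∀ A ∈ 𝒜, Aᶜ ∈ 𝒜

/-- `𝒜` is `G`-invariant. -/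
def IsInvariant (G : Type*) {X : Type*} [Group G] [MulAction G X] (𝒜 : Set (Set X)) : Prop :=
  ∀ g : G, ∀ A ∈ 𝒜, (fun x => g • x) '' A ∈ 𝒜

/-- `𝒜*`: the sets `⋃_{m < n} A_m × {m}` with all `A_m ∈ 𝒜`. -/
def Star {X : Type*} (𝒜 : Set (Set X)) : Set (Set (X × ℕ)) :=
  {E | ∃ (n : ℕ) (A : ℕ → Set X), (∀ m, A m ∈ 𝒜) ∧ E = {p | p.2 < n ∧ p.1 ∈ A p.2}}

/-- The action of `G* = G × Sym(ℕ)` on `X* = X × ℕ`. -/
def act {G X : Type*} [Group G] [MulAction G X] (h : G × Equiv.Perm ℕ) (p : X × ℕ) : X × ℕ :=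
  (h.1 • p.1, h.2 p.2)

/-- Equidecomposability in `𝒜`: `E` has a partition into finitely many sets of `𝒜*` whose
images under suitable elements of `G*` form a partition of `F`. -/
def Equidec (G : Type*) {X : Type*} [Group G] [MulAction G X] (𝒜 : Set (Set X))
    (E F : Set (X × ℕ)) : Prop :=
  ∃ (k : ℕ) (P : Fin k → Set (X × ℕ)) (h : Fin k → G × Equiv.Perm ℕ),
    (∀ i, P i ∈ Star 𝒜) ∧
    (∀ i j, i ≠ j → Disjoint (P i) (P j)) ∧ (⋃ i, P i) = E ∧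
    (∀ i j, i ≠ j → Disjoint (act (h i) '' P i) (act (h j) '' P j)) ∧
    (⋃ i, act (h i) '' P i) = F

/-- `n` copies of `E`, obtained by shifting the levels of `E` upward by `0, N, 2N, …, (n-1)N`.
When all levels of `E` are `< N`, these copies have disjoint levels, and the type of
`copies n E N` is the `n`-fold sum of the type of `E`. -/
def copies {X : Type*} (n : ℕ) (E : Set (X × ℕ)) (N : ℕ) : Set (X × ℕ) :=
  {p | ∃ j < n, ∃ m, (p.1, m) ∈ E ∧ p.2 = m + j * N}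

/-- The cancellation law in the semigroup `𝒮(𝒜)` of types: `n α = n β` implies `α = β`. -/
def CancellationLaw (G : Type*) {X : Type*} [Group G] [MulAction G X] (𝒜 : Set (Set X)) : Prop :=
  ∀ n : ℕ, 1 ≤ n → ∀ E ∈ Star 𝒜, ∀ F ∈ Star 𝒜,
    ∀ N : ℕ, (∀ p ∈ E, p.2 < N) → (∀ p ∈ F, p.2 < N) →
      Equidec G 𝒜 (copies n E N) (copies n F N) → Equidec G 𝒜 E F

end Pool.Agent.N116.Cancel
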