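import Mathlib
import Pool.Agent.N116.CancelDefs

namespace Pool.Agent.N116.Cancel

/-- sets that are symmetric far from the origin -/
def Alg : Set (Set ℤ) := {E | ∃ T : ℤ, ∀ x, T ≤ |x| → (x ∈ E ↔ -x ∈ E)}

theorem alg_finite {E : Set ℤ} (h : ∃ T : ℤ, ∀ x ∈ E, |x| ≤ T) : E ∈ Alg := by
  obtain ⟨T, hT⟩ := h
  refine ⟨T + 1, fun x hx => ⟨fun h => ?_, fun h => ?_⟩⟩
  · have := hT x h; omega
  · have := hT _ h; rw [abs_neg] at this; omega

theorem isSubalgebra_alg : IsSubalgebra Alg where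
  empty_mem := ⟨0, fun x _ => by simp⟩
  univ_mem := ⟨0, fun x _ => by simp⟩
  union_mem := by
    rintro A ⟨T, hT⟩ B ⟨S, hS⟩
    refine ⟨max T S, fun x hx => ?_⟩
    rw [Set.mem_union, Set.mem_union, hT x (le_trans (le_max_left _ _) hx),
      hS x (le_trans (le_max_right _ _) hx)]
  inter_mem := by
    rintro A ⟨T, hT⟩ B ⟨S, hS⟩
    refine ⟨max T S, fun x hx => ?_⟩
    rw [Set.mem_inter_iff, Set.mem_inter_iff, hT x (le_trans (le_max_left _ _) hx),
      hS x (le_trans (le_max_right _ _) hx)]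
  compl_mem := by
    rintro A ⟨T, hT⟩
    refine ⟨T, fun x hx => ?_⟩
    rw [Set.mem_compl_iff, Set.mem_compl_iff, hT x hx]

/-- the group of permutations of `ℤ` with bounded displacement that commute with `x ↦ -x` far
from the origin -/
def Gp : Subgroup (Equiv.Perm ℤ) where
  carrier := {g | (∃ C : ℤ, ∀ x, |g x - x| ≤ C) ∧ ∃ T : ℤ, ∀ x, T ≤ |x| → g (-x) = - g x}
  one_mem' := ⟨⟨0, fun x => by simp⟩, ⟨0, fun x _ => by simp⟩⟩
  mul_mem' := by
    rintro g h ⟨⟨C, hC⟩, ⟨T, hT⟩⟩ ⟨⟨C', hC'⟩, ⟨T', hT'⟩⟩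
    refine ⟨⟨C + C', fun x => ?_⟩, ⟨max T' (T + C'), fun x hx => ?_⟩⟩
    · rw [Equiv.Perm.mul_apply]
      have h1 := hC (h x)
      have h2 := hC' x
      rw [abs_le] at *
      constructor <;> omega
    · rw [Equiv.Perm.mul_apply, Equiv.Perm.mul_apply, hT' x (le_trans (le_max_left _ _) hx)]
      apply hT
      have h1 := hC' x
      have h2 := le_trans (le_max_right _ _) hx
      rw [abs_le] at h1
      rcases abs_cases x with h3 | h3 <;> rcases abs_cases (h x) with h4 | h4 <;> omega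
  inv_mem' := by
    rintro g ⟨⟨C, hC⟩, ⟨T, hT⟩⟩
    refine ⟨⟨C, fun x => ?_⟩, ⟨T + C, fun x hx => ?_⟩⟩
    · have h1 := hC (g⁻¹ x)
      rw [show g (g⁻¹ x) = x by simp] at h1
      rw [abs_le] at *
      constructor <;> omega
    · have h1 := hC (g⁻¹ x)
      rw [show g (g⁻¹ x) = x by simp] at h1
      have h2 : T ≤ |g⁻¹ x| := by
        rw [abs_le] at h1
        rcases abs_cases x with h3 | h3 <;> rcases abs_cases (g⁻¹ x) with h4 | h4 <;> omega
      have h3 := hT _ h2
      rw [show g (g⁻¹ x) = x by simp] at h3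
      rw [Equiv.Perm.inv_eq_iff_eq]
      exact h3.symm

theorem isInvariant_alg : IsInvariant Gp Alg := by
  rintro ⟨g, ⟨C, hC⟩, ⟨S, hS⟩⟩ A ⟨T, hT⟩
  have hg : (⟨g, ⟨C, hC⟩, ⟨S, hS⟩⟩ : Gp)⁻¹ ∈ (⊤ : Subgroup Gp) := trivial
  have hinv : g⁻¹ ∈ Gp := Gp.inv_mem ⟨⟨C, hC⟩, ⟨S, hS⟩⟩
  obtain ⟨⟨C', hC'⟩, ⟨S', hS'⟩⟩ := hinv
  refine ⟨max S' (T + C'), fun x hx => ?_⟩
  have h0 : ∀ y, y ∈ (fun x => (⟨g, ⟨C, hC⟩, ⟨S, hS⟩⟩ : Gp) • x) '' A ↔ g⁻¹ y ∈ A := by
    intro y
    constructor
    · rintro ⟨z, hz, rfl⟩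
      show g⁻¹ (g z) ∈ A
      simpa using hz
    · intro hy
      exact ⟨g⁻¹ y, hy, by show g (g⁻¹ y) = y; simp⟩
  rw [h0, h0, hS' x (le_trans (le_max_left _ _) hx)]
  apply hT
  have h1 := hC' x
  have h2 := le_trans (le_max_right _ _) hx
  rw [abs_le] at h1
  rcases abs_cases x with h3 | h3 <;> rcases abs_cases (g⁻¹ x) with h4 | h4 <;> omega

theorem alg_ne_univ : Alg ≠ Set.univ := by
  intro h
  have : {x : ℤ | 0 < x} ∈ Alg := by rw [h]; trivial
  obtain ⟨T, hT⟩ := this
  have h1 := hT (|T| + 1) (by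
    rw [abs_of_nonneg (by positivity)]
    have := le_abs_self T
    omega)
  simp only [Set.mem_ofPred_eq] at h1
  have := abs_nonneg T
  omega

/-- even integers -/
def Ev : Set ℤ := {x | x % 2 = 0}

/-- odd integers -/
def Od : Set ℤ := {x | x % 2 ≠ 0}

theorem ev_mem : Ev ∈ Alg := ⟨0, fun x _ => by simp only [Ev, Set.mem_ofPred_eq]; omega⟩

theorem od_mem : Od ∈ Alg := ⟨0, fun x _ => by simp only [Od, Set.mem_ofPred_eq]; omega⟩

/-- No bijection from the even to the odd integers has bounded displacement and commutes with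
`x ↦ -x` far from the origin. -/
theorem no_bij (φ : ℤ → ℤ) (hmaps : ∀ x ∈ Ev, φ x ∈ Od)
    (hinj : ∀ x ∈ Ev, ∀ y ∈ Ev, φ x = φ y → x = y) (hsurj : ∀ y ∈ Od, ∃ x ∈ Ev, φ x = y)
    (C : ℤ) (hC : ∀ x ∈ Ev, |φ x - x| ≤ C) (T : ℤ) (hT : ∀ x ∈ Ev, T ≤ |x| → φ (-x) = - φ x) :
    False := by
  -- choose `M` large
  have hC0 : 0 ≤ C := le_trans (abs_nonneg _) (hC 0 rfl)
  obtain ⟨M, hM⟩ : ∃ M : ℤ, M = |T| + C + 1 := ⟨_, rfl⟩
  have hT0 := le_abs_self T
  have hT1 := abs_nonneg T
  -- the even numbers in `[-2M, 2M]` and the odd ones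
  let SA : Finset ℤ := (Finset.Icc (-(2 * M)) (2 * M)).filter (fun x => x % 2 = 0)
  let SB : Finset ℤ := (Finset.Icc (-(2 * M)) (2 * M)).filter (fun x => x % 2 ≠ 0)
  let SP : Finset ℤ := SA.image φ
  have hSP : SP.card = SA.card := by
    apply Finset.card_image_of_injOn
    intro x hx y hy h
    have hx' := (Finset.mem_filter.mp (Finset.mem_coe.mp hx)).2
    have hy' := (Finset.mem_filter.mp (Finset.mem_coe.mp hy)).2
    exact hinj x hx' y hy' h
  -- parity by involutions
  have par : ∀ S : Finset ℤ, (∀ x ∈ S, -x ∈ S) → (∀ x ∈ S, x ≠ 0) → (S.card : ZMod 2) = 0 := by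
    intro S h1 h2
    have : ∑ x ∈ S, (1 : ZMod 2) = 0 := by
      apply Finset.sum_involution (fun x _ => -x)
      · intro a _; decide
      · intro a ha _ h; have := h2 a ha; omega
      · intro a _; simp
      · intro a ha; exact h1 a ha
    simpa using this
  have hA : (SA.card : ZMod 2) = 1 := by
    have h0 : (0 : ℤ) ∈ SA := by
      simp only [SA, Finset.mem_filter, Finset.mem_Icc]
      omega
    have h1 : ((SA.erase 0).card : ZMod 2) = 0 := by
      apply par
      · intro x hx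
        simp only [SA, Finset.mem_erase, Finset.mem_filter, Finset.mem_Icc] at hx ⊢
        omega
      · intro x hx
        exact (Finset.mem_erase.mp hx).1
    have h2 := Finset.card_erase_add_one h0
    rw [← h2]
    push_cast
    rw [h1]
    simp
  have hB : (SB.card : ZMod 2) = 0 := by
    apply par
    · intro x hx
      simp only [SB, Finset.mem_filter, Finset.mem_Icc] at hx ⊢
      omega
    · intro x hx
      simp only [SB, Finset.mem_filter, Finset.mem_Icc] at hx
      omega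
  have hd1 : ((SP \ SB).card : ZMod 2) = 0 := by
    apply par
    · intro x hx
      rw [Finset.mem_sdiff] at hx
      obtain ⟨hx1, hx2⟩ := hx
      obtain ⟨a, ha, rfl⟩ := Finset.mem_image.mp hx1
      simp only [SA, Finset.mem_filter, Finset.mem_Icc] at ha
      have hev : a ∈ Ev := ha.2
      have hod := hmaps a hev
      have hod' : φ a % 2 ≠ 0 := hod
      have hb := hC a hev
      have hout : ¬ (-(2 * M) ≤ φ a ∧ φ a ≤ 2 * M) := by
        intro h
        apply hx2
        simp only [SB, Finset.mem_filter, Finset.mem_Icc]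
        exact ⟨h, hod'⟩
      have hbig : T ≤ |a| := by
        rw [abs_le] at hb
        rcases abs_cases a with h3 | h3 <;> omega
      have hneg := hT a hev hbig
      rw [Finset.mem_sdiff]
      constructor
      · rw [← hneg]
        apply Finset.mem_image_of_mem
        simp only [SA, Finset.mem_filter, Finset.mem_Icc]
        omega
      · simp only [SB, Finset.mem_filter, Finset.mem_Icc]
        omega
    · intro x hx
      rw [Finset.mem_sdiff] at hx
      obtain ⟨a, ha, rfl⟩ := Finset.mem_image.mp hx.1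
      simp only [SA, Finset.mem_filter, Finset.mem_Icc] at ha
      have hod : φ a % 2 ≠ 0 := hmaps a ha.2
      omega
  have hd2 : ((SB \ SP).card : ZMod 2) = 0 := by
    apply par
    · intro x hx
      rw [Finset.mem_sdiff] at hx
      obtain ⟨hx1, hx2⟩ := hx
      simp only [SB, Finset.mem_filter, Finset.mem_Icc] at hx1
      obtain ⟨a, hev, rfl⟩ := hsurj x hx1.2
      have hb := hC a hev
      have hev' : a % 2 = 0 := hev
      have hout : ¬ (-(2 * M) ≤ a ∧ a ≤ 2 * M) := by
        intro h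
        apply hx2
        apply Finset.mem_image_of_mem
        simp only [SA, Finset.mem_filter, Finset.mem_Icc]
        exact ⟨h, hev'⟩
      have hbig : T ≤ |a| := by
        rcases abs_cases a with h3 | h3 <;> omega
      have hneg := hT a hev hbig
      rw [Finset.mem_sdiff]
      constructor
      · simp only [SB, Finset.mem_filter, Finset.mem_Icc]
        omega
      · intro h
        obtain ⟨a', ha', h'⟩ := Finset.mem_image.mp h
        simp only [SA, Finset.mem_filter, Finset.mem_Icc] at ha'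
        rw [← hneg] at h'
        have hneg' : -a ∈ Ev := by show (-a) % 2 = 0; omega
        have := hinj a' ha'.2 (-a) hneg' h'
        omega
    · intro x hx
      rw [Finset.mem_sdiff] at hx
      simp only [SB, Finset.mem_filter, Finset.mem_Icc] at hx
      omega
  have h1 := Finset.card_sdiff_add_card_inter SP SB
  have h2 := Finset.card_sdiff_add_card_inter SB SP
  have h3 : (SP.card : ZMod 2) = SB.card := by
    rw [← h1, ← h2]
    push_cast
    rw [hd1, hd2, Finset.inter_comm]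
  rw [hSP, hA, hB] at h3
  exact one_ne_zero h3

end Pool.Agent.N116.Cancel
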