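import Mathlib
import Pool.Agent.N116.Cancel

namespace Pool.Agent.N116.Cancel

theorem not_equidec : ¬ Equidec Gp Alg {p : ℤ × ℕ | p.1 ∈ Ev ∧ p.2 = 0}
    {p : ℤ × ℕ | p.1 ∈ Od ∧ p.2 = 0} := by
  rintro ⟨k, P, h, hP, hdis, hU, hdis', hU'⟩
  have hex : ∀ x ∈ Ev, ∃ i, ((x, 0) : ℤ × ℕ) ∈ P i := by
    intro x hx
    have : ((x, 0) : ℤ × ℕ) ∈ ⋃ i, P i := by rw [hU]; exact ⟨hx, rfl⟩
    simpa using this
  have hmemE : ∀ i, ∀ p ∈ P i, p.1 ∈ Ev ∧ p.2 = 0 := by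
    intro i p hp
    have : p ∈ ⋃ i, P i := Set.mem_iUnion.mpr ⟨i, hp⟩
    rw [hU] at this
    exact this
  have hmemF : ∀ i, ∀ p ∈ P i, (act (h i) p).1 ∈ Od ∧ (act (h i) p).2 = 0 := by
    intro i p hp
    have : act (h i) p ∈ ⋃ i, act (h i) '' P i := Set.mem_iUnion.mpr ⟨i, p, hp, rfl⟩
    rw [hU'] at this
    exact this
  choose ι hι using hex
  classical
  let φ : ℤ → ℤ := fun x => if hx : x ∈ Ev then ((h (ι x hx)).1 : Equiv.Perm ℤ) x else 0
  have huniq : ∀ p i j, p ∈ P i → p ∈ P j → i = j := by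
    intro p i j hi hj
    by_contra hne
    exact Set.disjoint_left.mp (hdis i j hne) hi hj
  have hφ : ∀ x, x ∈ Ev → ∀ i, ((x, 0) : ℤ × ℕ) ∈ P i → φ x = ((h i).1 : Equiv.Perm ℤ) x := by
    intro x hx i hi
    have : ι x hx = i := huniq _ _ _ (hι x hx) hi
    simp only [φ, dif_pos hx, this]
  have hact : ∀ x (hx : x ∈ Ev) i, ((x, 0) : ℤ × ℕ) ∈ P i → act (h i) ((x, 0) : ℤ × ℕ) = (φ x, 0) := by
    intro x hx i hi
    have h1 := (hmemF i _ hi).2
    rw [hφ x hx i hi]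
    exact Prod.ext rfl h1
  -- bounds for the group elements
  have hC : ∀ i, ∃ C : ℤ, ∀ x, |((h i).1 : Equiv.Perm ℤ) x - x| ≤ C := fun i => (h i).1.2.1
  have hT : ∀ i, ∃ T : ℤ, ∀ x, T ≤ |x| →
      ((h i).1 : Equiv.Perm ℤ) (-x) = - ((h i).1 : Equiv.Perm ℤ) x := fun i => (h i).1.2.2
  have hS : ∀ i, ∃ S : ℤ, ∀ x, S ≤ |x| → (((x, 0) : ℤ × ℕ) ∈ P i ↔ ((-x, 0) : ℤ × ℕ) ∈ P i) := by
    intro i
    obtain ⟨n, A, hA, he⟩ := hP i
    obtain ⟨S, hS⟩ := hA 0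
    refine ⟨S, fun x hx => ?_⟩
    rw [he]
    simp only [Set.mem_ofPred_eq]
    rw [hS x hx]
  choose C hC using hC
  choose T hT using hT
  choose S hS using hS
  apply no_bij φ (C := ∑ i, |C i|) (T := ∑ i, (|T i| + |S i|))
  · intro x hx
    have := hmemF _ _ (hι x hx)
    rw [hact x hx _ (hι x hx)] at this
    exact this.1
  · intro x hx y hy hxy
    have h1 := hact x hx _ (hι x hx)
    have h2 := hact y hy _ (hι y hy)
    by_cases hij : ι x hx = ι y hy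
    · have h3 := hφ x hx _ (hι x hx)
      have h4 := hφ y hy _ (hι y hy)
      rw [hij] at h3
      rw [h3, h4] at hxy
      exact ((h (ι y hy)).1 : Equiv.Perm ℤ).injective hxy
    · exfalso
      refine Set.disjoint_left.mp (hdis' _ _ hij) ⟨_, hι x hx, rfl⟩ ⟨_, hι y hy, ?_⟩
      rw [h1, h2, hxy]
  · intro y hy
    have : ((y, 0) : ℤ × ℕ) ∈ ⋃ i, act (h i) '' P i := by rw [hU']; exact ⟨hy, rfl⟩
    obtain ⟨i, ⟨x, m⟩, hp, hq⟩ := Set.mem_iUnion.mp this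
    obtain ⟨hx, hm⟩ := hmemE i _ hp
    simp only at hx hm
    subst hm
    refine ⟨x, hx, ?_⟩
    rw [hact x hx i hp] at hq
    exact congrArg Prod.fst hq
  · intro x hx
    rw [hφ x hx _ (hι x hx)]
    refine le_trans (hC _ x) (le_trans (le_abs_self _) ?_)
    exact Finset.single_le_sum (f := fun i => |C i|) (fun i _ => abs_nonneg _) (Finset.mem_univ _)
  · intro x hx hTx
    have hle : ∀ i, |T i| + |S i| ≤ |x| := by
      intro i
      refine le_trans ?_ hTx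
      exact Finset.single_le_sum (f := fun i => |T i| + |S i|) (fun i _ => by positivity)
        (Finset.mem_univ _)
    have h1 := hι x hx
    have h2 : ((-x, 0) : ℤ × ℕ) ∈ P (ι x hx) := by
      rw [← hS _ x]
      · exact h1
      · have := hle (ι x hx)
        have h3 := le_abs_self (S (ι x hx))
        have h4 := abs_nonneg (T (ι x hx))
        omega
    have hnx : -x ∈ Ev := by
      have : x % 2 = 0 := hx
      show (-x) % 2 = 0
      omega
    rw [hφ x hx _ h1, hφ (-x) hnx _ h2]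
    apply hT
    have := hle (ι x hx)
    have h3 := le_abs_self (T (ι x hx))
    have h4 := abs_nonneg (S (ι x hx))
    omega

/-- step towards the origin on even numbers -/
def tf (x : ℤ) : ℤ :=
  if x % 2 = 0 then (if x > 0 then x - 1 else if x < 0 then x + 1 else 0)
  else (if x > 0 then x + 1 else x - 1)

/-- step away from the origin on nonzero even numbers -/
def wf (x : ℤ) : ℤ :=
  if x % 2 = 0 then (if x > 0 then x + 1 else if x < 0 then x - 1 else 0)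
  else (if x > 1 then x - 1 else if x < -1 then x + 1 else x)

theorem tf_inv : Function.Involutive tf := by
  intro x
  unfold tf
  split_ifs <;> omega

theorem wf_inv : Function.Involutive wf := by
  intro x
  unfold wf
  split_ifs <;> omega

def t : Gp := ⟨tf_inv.toPerm, ⟨1, fun x => by
  show |tf x - x| ≤ 1
  rw [abs_le]
  unfold tf
  split_ifs <;> omega⟩, ⟨0, fun x _ => by
  show tf (-x) = - tf x
  unfold tf
  split_ifs <;> omega⟩⟩

def w : Gp := ⟨wf_inv.toPerm, ⟨1, fun x => by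
  show |wf x - x| ≤ 1
  rw [abs_le]
  unfold wf
  split_ifs <;> omega⟩, ⟨0, fun x _ => by
  show wf (-x) = - wf x
  unfold wf
  split_ifs <;> omega⟩⟩

/-- the transposition `(0 a)` for `a = ±1` -/
def sw (a : ℤ) (ha : |a| ≤ 1) : Gp := ⟨Equiv.swap 0 a, ⟨1, fun x => by
  rw [Equiv.swap_apply_def]
  rw [abs_le] at *
  split_ifs <;> omega⟩, ⟨2, fun x hx => by
  rw [Equiv.swap_apply_def, Equiv.swap_apply_def]
  rw [abs_le] at ha
  rcases abs_cases x with h | h <;> split_ifs <;> omega⟩⟩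

theorem star_level {B : Set ℤ} (hB : B ∈ Alg) (m : ℕ) :
    {p : ℤ × ℕ | p.2 = m ∧ p.1 ∈ B} ∈ Star Alg := by
  classical
  refine ⟨m + 1, fun j => if j = m then B else ∅, fun j => ?_, ?_⟩
  · simp only
    split_ifs
    · exact hB
    · exact isSubalgebra_alg.empty_mem
  · ext ⟨x, j⟩
    simp only [Set.mem_ofPred_eq]
    constructor
    · rintro ⟨rfl, h⟩
      exact ⟨by omega, by simpa using h⟩
    · rintro ⟨h1, h2⟩
      split_ifs at h2 with h3
      · exact ⟨h3, h2⟩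
      · exact absurd h2 (Set.notMem_empty _)

theorem ev0_mem : {x : ℤ | x % 2 = 0 ∧ x ≠ 0} ∈ Alg :=
  ⟨0, fun x _ => by simp only [Set.mem_ofPred_eq]; omega⟩

theorem sing_mem : {x : ℤ | x = 0} ∈ Alg := ⟨0, fun x _ => by simp only [Set.mem_ofPred_eq]; omega⟩

theorem image_level (g : Gp) (π : Equiv.Perm ℕ) (m : ℕ) (B : Set ℤ) (B' : Set ℤ)
    (h1 : ∀ x ∈ B, (g : Equiv.Perm ℤ) x ∈ B') (h2 : ∀ y ∈ B', ∃ x ∈ B, (g : Equiv.Perm ℤ) x = y) :
    act (g, π) '' {p : ℤ × ℕ | p.2 = m ∧ p.1 ∈ B} = {p : ℤ × ℕ | p.2 = π m ∧ p.1 ∈ B'} := by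
  ext ⟨y, j⟩
  constructor
  · rintro ⟨⟨x, m'⟩, ⟨hm, hx⟩, he⟩
    simp only at hm hx
    subst hm
    have e1 := congrArg Prod.fst he
    have e2 := congrArg Prod.snd he
    refine ⟨e2.symm, ?_⟩
    show y ∈ B'
    rw [← show (act (g, π) ((x, m') : ℤ × ℕ)).1 = y from e1]
    exact h1 x hx
  · rintro ⟨hj, hy⟩
    obtain ⟨x, hx, hxy⟩ := h2 y hy
    refine ⟨(x, m), ⟨rfl, hx⟩, ?_⟩
    simp only at hj
    rw [hj]
    exact Prod.ext hxy rfl

theorem equidec_two : Equidec Gp Alg (copies 2 {p : ℤ × ℕ | p.1 ∈ Ev ∧ p.2 = 0} 1)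
    (copies 2 {p : ℤ × ℕ | p.1 ∈ Od ∧ p.2 = 0} 1) := by
  let P : Fin 4 → Set (ℤ × ℕ) := ![{p | p.2 = 0 ∧ p.1 ∈ {x : ℤ | x % 2 = 0 ∧ x ≠ 0}},
    {p | p.2 = 1 ∧ p.1 ∈ {x : ℤ | x % 2 = 0 ∧ x ≠ 0}}, {p | p.2 = 0 ∧ p.1 ∈ {x : ℤ | x = 0}},
    {p | p.2 = 1 ∧ p.1 ∈ {x : ℤ | x = 0}}]
  let h : Fin 4 → Gp × Equiv.Perm ℕ := ![(t, 1), (w, 1), (sw 1 (by norm_num), Equiv.swap 0 1),
    (sw (-1) (by norm_num), 1)]
  have e0 : act (h 0) '' P 0 = {p | p.2 = 0 ∧ p.1 ∈ {x : ℤ | x % 2 ≠ 0}} := by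
    refine (image_level t 1 0 _ {x : ℤ | x % 2 ≠ 0} ?_ ?_)
    · rintro x ⟨hx1, hx2⟩
      show tf x % 2 ≠ 0
      unfold tf
      split_ifs <;> omega
    · rintro y hy
      have hy' : y % 2 ≠ 0 := hy
      refine ⟨tf y, ?_, tf_inv y⟩
      show tf y % 2 = 0 ∧ tf y ≠ 0
      unfold tf
      split_ifs <;> omega
  have e1 : act (h 1) '' P 1 = {p | p.2 = 1 ∧ p.1 ∈ {x : ℤ | x % 2 ≠ 0 ∧ x ≠ 1 ∧ x ≠ -1}} := by
    refine (image_level w 1 1 _ {x : ℤ | x % 2 ≠ 0 ∧ x ≠ 1 ∧ x ≠ -1} ?_ ?_)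
    · rintro x ⟨hx1, hx2⟩
      show wf x % 2 ≠ 0 ∧ wf x ≠ 1 ∧ wf x ≠ -1
      unfold wf
      split_ifs <;> omega
    · rintro y ⟨hy, hy1, hy2⟩
      refine ⟨wf y, ?_, wf_inv y⟩
      show wf y % 2 = 0 ∧ wf y ≠ 0
      unfold wf
      split_ifs <;> omega
  have e2 : act (h 2) '' P 2 = {p | p.2 = 1 ∧ p.1 ∈ {x : ℤ | x = 1}} := by
    have := image_level (sw 1 (by norm_num)) (Equiv.swap 0 1) 0 {x : ℤ | x = 0} {x : ℤ | x = 1}
      (by rintro x hx
          have hx' : x = 0 := hx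
          subst hx'
          show Equiv.swap (0 : ℤ) 1 0 = 1
          simp)
      (by rintro y hy
          have hy' : y = 1 := hy
          subst hy'
          refine ⟨0, rfl, ?_⟩
          show Equiv.swap (0 : ℤ) 1 0 = 1
          simp)
    rw [Equiv.swap_apply_left] at this
    exact this
  have e3 : act (h 3) '' P 3 = {p | p.2 = 1 ∧ p.1 ∈ {x : ℤ | x = -1}} := by
    refine image_level (sw (-1) (by norm_num)) 1 1 {x : ℤ | x = 0} {x : ℤ | x = -1} ?_ ?_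
    · rintro x hx
      have hx' : x = 0 := hx
      subst hx'
      show Equiv.swap (0 : ℤ) (-1) 0 = -1
      simp
    · rintro y hy
      have hy' : y = -1 := hy
      subst hy'
      refine ⟨0, rfl, ?_⟩
      show Equiv.swap (0 : ℤ) (-1) 0 = -1
      simp
  refine ⟨4, P, h, ?_, ?_, ?_, ?_, ?_⟩
  · intro i
    fin_cases i
    · exact star_level ev0_mem 0
    · exact star_level ev0_mem 1
    · exact star_level sing_mem 0
    · exact star_level sing_mem 1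
  · intro i j hij
    rw [Set.disjoint_left]
    rintro ⟨x, m⟩
    fin_cases i <;> fin_cases j <;> first
      | exact absurd rfl hij
      | (rintro ⟨h1, h2⟩ ⟨h3, h4⟩
         simp only [Set.mem_ofPred_eq] at h1 h2 h3 h4
         omega)
  · ext ⟨x, m⟩
    rw [Set.mem_iUnion, Fin.exists_iff]
    constructor
    · rintro ⟨i, hi, hp⟩
      have : i = 0 ∨ i = 1 ∨ i = 2 ∨ i = 3 := by omega
      rcases this with rfl | rfl | rfl | rfl
      · obtain ⟨h1, h2⟩ := hp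
        simp only [Set.mem_ofPred_eq] at h1 h2
        exact ⟨0, by omega, 0, ⟨h2.1, rfl⟩, by simp [h1]⟩
      · obtain ⟨h1, h2⟩ := hp
        simp only [Set.mem_ofPred_eq] at h1 h2
        exact ⟨1, by omega, 0, ⟨h2.1, rfl⟩, by simp [h1]⟩
      · obtain ⟨h1, h2⟩ := hp
        simp only [Set.mem_ofPred_eq] at h1 h2
        exact ⟨0, by omega, 0, ⟨by simp [Ev, h2], rfl⟩, by simp [h1]⟩
      · obtain ⟨h1, h2⟩ := hp
        simp only [Set.mem_ofPred_eq] at h1 h2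
        exact ⟨1, by omega, 0, ⟨by simp [Ev, h2], rfl⟩, by simp [h1]⟩
    · rintro ⟨j, hj, m', ⟨h1, h2⟩, h3⟩
      simp only at h1 h2 h3
      have h1' : x % 2 = 0 := h1
      subst h2
      have : j = 0 ∨ j = 1 := by omega
      by_cases hx : x = 0
      · rcases this with rfl | rfl
        · refine ⟨2, by omega, ?_⟩
          show ((x, m) : ℤ × ℕ) ∈ {p : ℤ × ℕ | p.2 = 0 ∧ p.1 ∈ {x : ℤ | x = 0}}
          exact ⟨by simp [h3], hx⟩
        · refine ⟨3, by omega, ?_⟩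
          show ((x, m) : ℤ × ℕ) ∈ {p : ℤ × ℕ | p.2 = 1 ∧ p.1 ∈ {x : ℤ | x = 0}}
          exact ⟨by simp [h3], hx⟩
      · rcases this with rfl | rfl
        · refine ⟨0, by omega, ?_⟩
          show ((x, m) : ℤ × ℕ) ∈ {p : ℤ × ℕ | p.2 = 0 ∧ p.1 ∈ {x : ℤ | x % 2 = 0 ∧ x ≠ 0}}
          exact ⟨by simp [h3], h1', hx⟩
        · refine ⟨1, by omega, ?_⟩
          show ((x, m) : ℤ × ℕ) ∈ {p : ℤ × ℕ | p.2 = 1 ∧ p.1 ∈ {x : ℤ | x % 2 = 0 ∧ x ≠ 0}}
          exact ⟨by simp [h3], h1', hx⟩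
  · intro i j hij
    rw [Set.disjoint_left]
    rintro ⟨x, m⟩
    fin_cases i <;> fin_cases j <;> first
      | exact absurd rfl hij
      | (simp only [Fin.zero_eta, Fin.mk_one, Fin.reduceFinMk, e0, e1, e2, e3]
         rintro ⟨h1, h2⟩ ⟨h3, h4⟩
         simp only [Set.mem_ofPred_eq] at h1 h2 h3 h4
         omega)
  · ext ⟨x, m⟩
    rw [Set.mem_iUnion, Fin.exists_iff]
    constructor
    · rintro ⟨i, hi, hp⟩
      have : i = 0 ∨ i = 1 ∨ i = 2 ∨ i = 3 := by omega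
      rcases this with rfl | rfl | rfl | rfl
      · have hp' : ((x, m) : ℤ × ℕ) ∈ act (h 0) '' P 0 := hp
        rw [e0] at hp'
        obtain ⟨h1, h2⟩ := hp'
        simp only [Set.mem_ofPred_eq] at h1 h2
        exact ⟨0, by omega, 0, ⟨h2, rfl⟩, by simp [h1]⟩
      · have hp' : ((x, m) : ℤ × ℕ) ∈ act (h 1) '' P 1 := hp
        rw [e1] at hp'
        obtain ⟨h1, h2⟩ := hp'
        simp only [Set.mem_ofPred_eq] at h1 h2
        exact ⟨1, by omega, 0, ⟨h2.1, rfl⟩, by simp [h1]⟩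
      · have hp' : ((x, m) : ℤ × ℕ) ∈ act (h 2) '' P 2 := hp
        rw [e2] at hp'
        obtain ⟨h1, h2⟩ := hp'
        simp only [Set.mem_ofPred_eq] at h1 h2
        exact ⟨1, by omega, 0, ⟨by simp [Od, h2], rfl⟩, by simp [h1]⟩
      · have hp' : ((x, m) : ℤ × ℕ) ∈ act (h 3) '' P 3 := hp
        rw [e3] at hp'
        obtain ⟨h1, h2⟩ := hp'
        simp only [Set.mem_ofPred_eq] at h1 h2
        exact ⟨1, by omega, 0, ⟨by simp [Od, h2], rfl⟩, by simp [h1]⟩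
    · rintro ⟨j, hj, m', ⟨h1, h2⟩, h3⟩
      simp only at h1 h2 h3
      have h1' : x % 2 ≠ 0 := h1
      subst h2
      have : j = 0 ∨ j = 1 := by omega
      rcases this with rfl | rfl
      · refine ⟨0, by omega, ?_⟩
        show ((x, m) : ℤ × ℕ) ∈ act (h 0) '' P 0
        rw [e0]
        exact ⟨by simp [h3], h1'⟩
      · by_cases hx : x = 1
        · refine ⟨2, by omega, ?_⟩
          show ((x, m) : ℤ × ℕ) ∈ act (h 2) '' P 2
          rw [e2]
          exact ⟨by simp [h3], hx⟩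
        · by_cases hx' : x = -1
          · refine ⟨3, by omega, ?_⟩
            show ((x, m) : ℤ × ℕ) ∈ act (h 3) '' P 3
            rw [e3]
            exact ⟨by simp [h3], hx'⟩
          · refine ⟨1, by omega, ?_⟩
            show ((x, m) : ℤ × ℕ) ∈ act (h 1) '' P 1
            rw [e1]
            exact ⟨by simp [h3], h1', hx, hx'⟩

theorem mem_star_level {B : Set ℤ} (hB : B ∈ Alg) :
    {p : ℤ × ℕ | p.1 ∈ B ∧ p.2 = 0} ∈ Star Alg := by
  have := star_level hB 0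
  convert this using 1
  ext p
  simp only [Set.mem_ofPred_eq]
  exact and_comm

theorem main : ∃ (G : Type) (_ : Group G) (X : Type) (_ : MulAction G X) (𝒜 : Set (Set X)),
    IsSubalgebra 𝒜 ∧ IsInvariant G 𝒜 ∧ 𝒜 ≠ Set.univ ∧ ¬ CancellationLaw G 𝒜 := by
  refine ⟨Gp, inferInstance, ℤ, inferInstance, Alg, isSubalgebra_alg, isInvariant_alg,
    alg_ne_univ, ?_⟩
  intro hlaw
  exact not_equidec (hlaw 2 (by norm_num) _ (mem_star_level ev_mem) _ (mem_star_level od_mem) 1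
    (by rintro p ⟨_, hp⟩; omega) (by rintro p ⟨_, hp⟩; omega) equidec_two)

end Pool.Agent.N116.Cancel
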