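import Mathlib

namespace Pool.Agent.N116.RightOrd

/-- The linearly ordered set `ℤ × ℚ` with the lexicographic order. -/
abbrev X := ℤ ×ₗ ℚ

/-- act fibrewise -/
def fib (φ : ℤ → (ℚ ≃o ℚ)) : X ≃o X where
  toFun p := toLex ((ofLex p).1, φ (ofLex p).1 (ofLex p).2)
  invFun p := toLex ((ofLex p).1, (φ (ofLex p).1).symm (ofLex p).2)
  left_inv p := by simp
  right_inv p := by simp
  map_rel_iff' := by
    intro p q
    simp only [Equiv.coe_fn_mk, Prod.Lex.toLex_le_toLex]
    rw [Prod.Lex.le_iff]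
    constructor
    · rintro (h | ⟨h1, h2⟩)
      · exact Or.inl h
      · refine Or.inr ⟨h1, ?_⟩
        rw [h1] at h2
        simpa using h2
    · rintro (h | ⟨h1, h2⟩)
      · exact Or.inl h
      · refine Or.inr ⟨h1, ?_⟩
        rw [h1]
        simpa using h2

theorem fib_apply (φ : ℤ → (ℚ ≃o ℚ)) (n : ℤ) (x : ℚ) :
    fib φ (toLex (n, x)) = toLex (n, φ n x) := rfl

/-- the shift -/
def sh (k : ℤ) : X ≃o X where
  toFun p := toLex ((ofLex p).1 + k, (ofLex p).2)
  invFun p := toLex ((ofLex p).1 - k, (ofLex p).2)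
  left_inv p := by simp
  right_inv p := by simp
  map_rel_iff' := by
    intro p q
    simp only [Equiv.coe_fn_mk, Prod.Lex.toLex_le_toLex]
    rw [Prod.Lex.le_iff]
    simp

theorem sh_apply (k n : ℤ) (x : ℚ) : sh k (toLex (n, x)) = toLex (n + k, x) := rfl

theorem sh_mul (k l : ℤ) : sh k * sh l = sh (k + l) := by
  ext p
  obtain ⟨⟨n, x⟩, rfl⟩ := toLex.surjective p
  show sh k (sh l (toLex (n, x))) = _
  rw [sh_apply, sh_apply, sh_apply]
  congr 2
  ring

theorem sh_pow (k : ℕ) : (sh 1) ^ k = sh k := by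
  induction k with
  | zero =>
    ext p
    obtain ⟨⟨n, x⟩, rfl⟩ := toLex.surjective p
    simp [sh_apply]
  | succ k ih =>
    rw [pow_succ, ih, sh_mul]
    push_cast
    rfl

theorem conj_fib (k : ℤ) (φ : ℤ → (ℚ ≃o ℚ)) :
    sh k * fib φ = fib (fun n => φ (n - k)) * sh k := by
  ext p
  obtain ⟨⟨n, x⟩, rfl⟩ := toLex.surjective p
  show sh k (fib φ (toLex (n, x))) = fib (fun n => φ (n - k)) (sh k (toLex (n, x)))
  rw [sh_apply, fib_apply, fib_apply, sh_apply]
  simp

theorem fib_mul (φ ψ : ℤ → (ℚ ≃o ℚ)) : fib φ * fib ψ = fib (φ * ψ) := by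
  ext p
  obtain ⟨⟨n, x⟩, rfl⟩ := toLex.surjective p
  rfl

theorem fib_injective : Function.Injective fib := by
  intro φ ψ h
  funext n
  ext x
  have := congrArg (fun f : X ≃o X => (ofLex (f (toLex (n, x)))).2) h
  simpa [fib_apply] using this

theorem lex_le_iff {α : Type*} [LinearOrder α] (f g : ℕ → α) :
    toLex f ≤ toLex g ↔ f = g ∨ ∃ i, (∀ j < i, f j = g j) ∧ f i < g i := by
  rw [le_iff_eq_or_lt]
  constructor
  · rintro (h | h)
    · exact Or.inl (toLex.injective h)
    · exact Or.inr h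
  · rintro (h | h)
    · exact Or.inl (congrArg _ h)
    · exact Or.inr h

theorem rightOrderable_aut (H : Subgroup (X ≃o X)) :
    ∃ _ : LinearOrder H, ∀ x y z : H, x ≤ y → x * z ≤ y * z := by
  have hX : Countable X := inferInstanceAs (Countable (ℤ × ℚ))
  obtain ⟨e, he⟩ := exists_surjective_nat X
  let Φ : H → Lex (ℕ → X) := fun f => toLex (fun n => (f : X ≃o X)⁻¹ (e n))
  have hΦ : Function.Injective Φ := by
    intro f g h
    have h1 : (fun n => (f : X ≃o X)⁻¹ (e n)) = (fun n => (g : X ≃o X)⁻¹ (e n)) :=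
      toLex.injective h
    have h2 : (f : X ≃o X)⁻¹ = (g : X ≃o X)⁻¹ := by
      ext p
      obtain ⟨n, rfl⟩ := he p
      exact congrFun h1 n
    exact Subtype.ext (inv_injective h2)
  refine ⟨LinearOrder.lift' Φ hΦ, ?_⟩
  intro x y z hxy
  have hxy' : Φ x ≤ Φ y := hxy
  show Φ (x * z) ≤ Φ (y * z)
  have key : ∀ (w : H) (n : ℕ), (((w * z : H) : X ≃o X)⁻¹) (e n)
      = (z : X ≃o X)⁻¹ ((w : X ≃o X)⁻¹ (e n)) := by
    intro w n
    rw [Subgroup.coe_mul, mul_inv_rev]
    rfl
  rw [lex_le_iff] at hxy' ⊢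
  rcases hxy' with h | ⟨i, h1, h2⟩
  · left
    funext n
    rw [key, key]
    exact congrArg _ (congrFun h n)
  · right
    refine ⟨i, ?_, ?_⟩
    · intro j hj
      rw [key, key]
      exact congrArg _ (h1 j hj)
    · rw [key, key]
      exact ((z : X ≃o X)⁻¹).lt_iff_lt.mpr h2

/-- doubling -/
def dbl : ℚ ≃o ℚ := OrderIso.mulLeft₀ 2 (by norm_num)

/-- translation -/
def tr : ℚ ≃o ℚ := OrderIso.addRight 1

theorem dbl_tr : ¬ Commute dbl tr := by
  intro h
  have := congrArg (fun f : ℚ ≃o ℚ => f 0) h.eq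
  have h1 : (dbl * tr) 0 = 2 := by
    show dbl (tr 0) = 2
    simp [dbl, tr]
  have h2 : (tr * dbl) 0 = 1 := by
    show tr (dbl 0) = 1
    simp [dbl, tr]
  simp only [h1, h2] at this
  norm_num at this

open Classical in
/-- the fibre maps encoding a set `S` of natural numbers -/
noncomputable def ph (S : Set ℕ) (n : ℤ) : ℚ ≃o ℚ :=
  if n = 0 then dbl else if ∃ k ∈ S, n = (k : ℤ) + 1 then tr else 1

theorem ph_zero (S : Set ℕ) : ph S 0 = dbl := by simp [ph]

theorem ph_succ_mem (S : Set ℕ) (k : ℕ) (hk : k ∈ S) : ph S ((k : ℤ) + 1) = tr := by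
  unfold ph
  rw [if_neg (by omega), if_pos ⟨k, hk, rfl⟩]

theorem ph_succ_notMem (S : Set ℕ) (k : ℕ) (hk : k ∉ S) : ph S ((k : ℤ) + 1) = 1 := by
  unfold ph
  rw [if_neg (by omega), if_neg]
  rintro ⟨l, hl, h⟩
  have : k = l := by omega
  exact hk (this ▸ hl)

theorem ph_neg (S : Set ℕ) (n : ℤ) (hn : n < 0) : ph S n = 1 := by
  unfold ph
  rw [if_neg (by omega), if_neg]
  rintro ⟨l, hl, h⟩
  omega

theorem ph_ne_zero (S : Set ℕ) (n : ℤ) (hn : n ≠ 0) : ph S n = tr ∨ ph S n = 1 := by
  unfold ph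
  rw [if_neg hn]
  split_ifs <;> simp

/-- the conjugate of `a` by `t ^ (k+1)` commutes with `a` iff `k ∉ S`. -/
theorem commute_iff (S : Set ℕ) (k : ℕ) :
    Commute (fib (ph S)) ((sh 1) ^ (k + 1) * fib (ph S) * ((sh 1) ^ (k + 1))⁻¹) ↔ k ∉ S := by
  rw [sh_pow, conj_fib, mul_inv_cancel_right]
  have h1 : ∀ φ ψ : ℤ → (ℚ ≃o ℚ), Commute (fib φ) (fib ψ) ↔ ∀ n, Commute (φ n) (ψ n) := by
    intro φ ψ
    constructor
    · intro h n
      have h2 := h.eq
      rw [fib_mul, fib_mul] at h2
      exact congrFun (fib_injective h2) n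
    · intro h
      show fib φ * fib ψ = fib ψ * fib φ
      rw [fib_mul, fib_mul]
      congr 1
      funext n
      exact h n
  rw [h1]
  constructor
  · intro h hk
    have h2 := h ((k : ℤ) + 1)
    simp only [Nat.cast_add, Nat.cast_one, sub_self] at h2
    rw [ph_zero, ph_succ_mem S k hk] at h2
    exact dbl_tr h2.symm
  · intro hk n
    by_cases h0 : n = 0
    · subst h0
      rw [ph_neg S (0 - ((k + 1 : ℕ) : ℤ)) (by push_cast; omega)]
      exact Commute.one_right _
    · by_cases h2 : n = (k : ℤ) + 1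
      · subst h2
        rw [ph_succ_notMem S k hk]
        exact Commute.one_left _
      · have h3 : n - ((k + 1 : ℕ) : ℤ) ≠ 0 := by push_cast; omega
        rcases ph_ne_zero S n h0 with h | h <;>
          rcases ph_ne_zero S _ h3 with h' | h' <;> rw [h, h']
        · exact Commute.one_right _
        · exact Commute.one_left _

/-- the group encoding `S` -/
noncomputable def GS (S : Set ℕ) : Subgroup (X ≃o X) :=
  Subgroup.closure {fib (ph S), sh 1}

noncomputable def aS (S : Set ℕ) : GS S := ⟨fib (ph S), Subgroup.subset_closure (by simp)⟩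

noncomputable def tS (S : Set ℕ) : GS S := ⟨sh 1, Subgroup.subset_closure (by simp)⟩

theorem closure_eq_top (S : Set ℕ) : Subgroup.closure {aS S, tS S} = ⊤ := by
  have h := Subgroup.closure_closure_coe_preimage (k := ({fib (ph S), sh 1} : Set (X ≃o X)))
  have h2 : ({aS S, tS S} : Set (GS S)) = (Subtype.val ⁻¹' ({fib (ph S), sh 1} : Set (X ≃o X))) := by
    ext g
    constructor
    · rintro (h | h)
      · left; rw [h]; rfl
      · right; rw [Set.mem_singleton_iff.mp h]; rfl
    · rintro (h | h)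
      · left; exact Subtype.ext h
      · right; exact Subtype.ext h
  rw [h2]
  exact h

theorem commute_GS (S : Set ℕ) (k : ℕ) :
    Commute (aS S) ((tS S) ^ (k + 1) * aS S * ((tS S) ^ (k + 1))⁻¹) ↔ k ∉ S := by
  rw [← commute_iff S k]
  constructor
  · intro h
    exact congrArg Subtype.val h.eq
  · intro h
    exact Subtype.ext h.eq

/-- For every countable group `U`
(right-orderable or not) there is a right-orderable group generated by two elements
that is not isomorphic to a subgroup of `U`. -/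
theorem main (U : Type*) [Group U] [Countable U] :
    ∃ (G : Type) (_ : Group G), Countable G ∧ (∃ _ : LinearOrder G, ∀ x y z : G, x ≤ y → x * z ≤ y * z) ∧
      (∃ a t : G, Subgroup.closure {a, t} = ⊤) ∧
      ¬ ∃ f : G →* U, Function.Injective f := by
  by_contra hcon
  push Not at hcon
  have hemb : ∀ S : Set ℕ, ∃ f : GS S →* U, Function.Injective f := by
    intro S
    have hc : Countable (GS S) := by
      have hfg : Group.FG (GS S) := Group.fg_iff.2 ⟨{aS S, tS S}, closure_eq_top S, by simp⟩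
      obtain ⟨α, hα, φ, hφ⟩ := Group.fg_iff_exists_freeGroup_hom_surjective_finite.1 hfg
      exact hφ.countable
    exact hcon (GS S) inferInstance hc (rightOrderable_aut _) ⟨aS S, tS S, closure_eq_top S⟩
  choose f hf using hemb
  have : ∃ S S' : Set ℕ, (f S (aS S), f S (tS S)) = (f S' (aS S'), f S' (tS S')) ∧ S ≠ S' := by
    by_contra hne
    push Not at hne
    have hinj : Function.Injective (fun S : Set ℕ => (f S (aS S), f S (tS S))) := by
      intro S S' h
      exact hne S S' h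
    have h1 : Countable (Set ℕ) := hinj.countable
    have h2 : Cardinal.mk (Set ℕ) ≤ Cardinal.aleph0 := Cardinal.mk_le_aleph0_iff.mpr h1
    rw [Cardinal.mk_set, Cardinal.mk_nat] at h2
    exact absurd h2 (not_le.mpr (Cardinal.cantor _))
  obtain ⟨S, S', h, hne⟩ := this
  apply hne
  have ha : f S (aS S) = f S' (aS S') := congrArg Prod.fst h
  have ht : f S (tS S) = f S' (tS S') := congrArg Prod.snd h
  have key : ∀ T : Set ℕ, ∀ k : ℕ, (k ∉ T ↔
      Commute (f T (aS T)) ((f T (tS T)) ^ (k + 1) * f T (aS T) * ((f T (tS T)) ^ (k + 1))⁻¹)) := by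
    intro T k
    rw [← commute_GS T k]
    constructor
    · intro hc
      have := hc.map (f T)
      simpa using this
    · intro hc
      apply hf T
      simpa using hc.eq
  ext k
  have h1 := key S k
  rw [ha, ht] at h1
  exact not_iff_not.mp (h1.trans (key S' k).symm)

end Pool.Agent.N116.RightOrd
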